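import Pool.Agent.W997.LZ.Fml

/-!
# The depth law for lazily evaluated circuits
-/

set_option autoImplicit false

namespace Pool.Agent.W997.LZ

open Finset
open Pool.Agent.W997.TS (DBP bit)
open Pool.Agent.W997.DB

section Upper

variable {D ρ h ℓ : ℕ}

theorem entV_tru (x : Input D ρ h (2 ^ ℓ)) (v : (Fin (h + 1) × Word D ρ) × Fin D) :
    entV v (tru x v) = (sys D ρ h (2 ^ ℓ)).pos (valF x) v := by
  unfold entV sys
  simp only
  by_cases hj : v.1.1.val = 0
  · rw [dif_pos hj, dif_pos hj]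
  · rw [dif_neg hj, dif_neg hj]
    congr 4
    funext s
    apply Fin.ext
    simp only [ent, tru, Equiv.symm_apply_apply]
    rw [Nat.ofBits_testBit, Nat.mod_eq_of_lt (Fin.is_lt _)]
    rfl

/-- The bits of the entries which belong to the true values of the children. -/
noncomputable def right (x : Input D ρ h (2 ^ ℓ)) : Finset (Var D ρ h (2 ^ ℓ) × Fin ℓ) :=
  (univ : Finset (((Fin (h + 1) × Word D ρ) × Fin D) × Fin ℓ)).image
    (fun p => ((sys D ρ h (2 ^ ℓ)).pos (valF x) p.1, p.2))

theorem right_card (x : Input D ρ h (2 ^ ℓ)) :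
    (right x).card ≤ (h + 1) * (D ^ (ρ + 1) * D) * ℓ := by
  refine card_image_le.trans (le_of_eq ?_)
  rw [card_univ, Fintype.card_prod, Fintype.card_prod, Fintype.card_prod, Fintype.card_fun,
    Fintype.card_fin, Fintype.card_fin, Fintype.card_fin, Fintype.card_fin]
  ring

theorem circ_looks (hℓ : 0 < ℓ) (g0 : Word D ρ) (i0 : Fin D) (x : Input D ρ h (2 ^ ℓ)) :
    ∀ (n : ℕ) (g : EGate D ρ h ℓ), elev g < n →
      (∀ q : Fin (D * ℓ), q.val < g.2.2.1.val → g.2.2.2.1 q = tru x g.1 q) →
      (unfold (circ D ρ h ℓ hℓ g0 i0) g).looks (bits x) ⊆ right x := by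
  set C := circ D ρ h ℓ hℓ g0 i0 with hC
  have hev : ∀ g : EGate D ρ h ℓ, (unfold C g).eval (bits x) = eval x g := fun g =>
    unfold_eval C (bits x) (eval x) (eval_eop x) _ g (Nat.lt_succ_self _)
  intro n
  induction n with
  | zero => intro g hg; omega
  | succ n ih =>
    rintro ⟨v, c, m, w, κ⟩ hg hw
    simp only at hw
    have hval : ∀ (v' : (Fin (h + 1) × Word D ρ) × Fin D) (c' : Fin ℓ) (κ' : Fin 4),
        ∀ q : Fin (D * ℓ), q.val < (valG v' c' κ').2.2.1.val →
          (valG v' c' κ').2.2.2.1 q = tru x (valG v' c' κ').1 q := by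
      intro v' c' κ' q hq
      exact absurd hq (Nat.not_lt_zero _)
    by_cases h3 : κ = 3
    · have hop : C.op (v, c, m, w, κ) = Op.not (valG v c 0) := by
        change eop (v, c, m, w, κ) = _
        unfold eop
        simp only
        rw [if_pos h3]
      have hlt := C.level_lt (v, c, m, w, κ) (valG v c 0)
        (by rw [hop]; exact List.mem_singleton_self _)
      change elev (valG v c 0) < elev (v, c, m, w, κ) at hlt
      rw [unfold_not C hop, Fml.looks]
      exact ih _ (by omega) (hval _ _ _)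
    by_cases hm : v.1.1.val = 0 ∨ ¬ m.val < D * ℓ
    · have hop : C.op (v, c, m, w, κ) = Op.lit (entV v w, c) := by
        change eop (v, c, m, w, κ) = _
        unfold eop
        simp only
        rw [if_neg h3, dif_pos hm]
        rfl
      rw [unfold_lit C hop, Fml.looks, singleton_subset_iff]
      have hent : entV v w = (sys D ρ h (2 ^ ℓ)).pos (valF x) v := by
        rw [← entV_tru]
        rcases hm with hm | hm
        · unfold entV
          rw [dif_pos hm, dif_pos hm]
        · have : w = tru x v := by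
            funext q
            apply hw
            have := q.2
            omega
          rw [this]
      rw [hent]
      exact mem_image_of_mem (fun p => ((sys D ρ h (2 ^ ℓ)).pos (valF x) p.1, p.2))
        (mem_univ (v, c))
    have hm' := hm
    push Not at hm'
    obtain ⟨hj, hml⟩ := hm'
    by_cases h0 : κ = 0
    · have hop : C.op (v, c, m, w, κ) = Op.or (v, c, m, w, 1) (v, c, m, w, 2) := by
        change eop (v, c, m, w, κ) = _
        unfold eop
        simp only
        rw [if_neg h3, dif_neg hm, if_pos h0]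
      have hlt1 := C.level_lt (v, c, m, w, κ) (v, c, m, w, 1) (by rw [hop]; exact List.mem_cons_self)
      have hlt2 := C.level_lt (v, c, m, w, κ) (v, c, m, w, 2)
        (by rw [hop]; exact List.mem_cons_of_mem _ (List.mem_singleton_self _))
      change elev (v, c, m, w, 1) < elev (v, c, m, w, κ) at hlt1
      change elev (v, c, m, w, 2) < elev (v, c, m, w, κ) at hlt2
      rw [unfold_or C hop, Fml.looks]
      have e1 := ih (v, c, m, w, 1) (by omega) hw
      have e2 := ih (v, c, m, w, 2) (by omega) hw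
      split_ifs
      · exact e1
      · exact union_subset e1 e2
    set q0 : Fin (D * ℓ) := ⟨m.val, hml⟩ with hq0
    have hupd : ∀ b : Bool, tru x v q0 = b → ∀ q : Fin (D * ℓ), q.val < m.val + 1 →
        Function.update w q0 b q = tru x v q := by
      intro b hb q hq
      by_cases h1 : q = q0
      · subst h1
        rw [Function.update_self, hb]
      · rw [Function.update_of_ne h1]
        apply hw
        have h2 : q.val ≠ m.val := fun h3 => h1 (Fin.ext h3)
        omega
    by_cases h1 : κ = 1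
    · have hop : C.op (v, c, m, w, κ) = Op.and
          (valG (chd v (finProdFinEquiv.symm q0).1) (finProdFinEquiv.symm q0).2 3)
          (v, c, ⟨m.val + 1, by omega⟩, Function.update w q0 false, 0) := by
        change eop (v, c, m, w, κ) = _
        unfold eop
        simp only
        rw [if_neg h3, dif_neg hm, if_neg h0, if_pos h1]
      have hlt1 := C.level_lt (v, c, m, w, κ)
        (valG (chd v (finProdFinEquiv.symm q0).1) (finProdFinEquiv.symm q0).2 3)
        (by rw [hop]; exact List.mem_cons_self)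
      have hlt2 := C.level_lt (v, c, m, w, κ)
        (v, c, ⟨m.val + 1, by omega⟩, Function.update w q0 false, 0)
        (by rw [hop]; exact List.mem_cons_of_mem _ (List.mem_singleton_self _))
      change elev (valG (chd v (finProdFinEquiv.symm q0).1) (finProdFinEquiv.symm q0).2 3) <
        elev (v, c, m, w, κ) at hlt1
      change elev (v, c, ⟨m.val + 1, by omega⟩, Function.update w q0 false, 0) <
        elev (v, c, m, w, κ) at hlt2
      rw [unfold_and C hop, Fml.looks]
      have e1 := ih _ (by omega) (hval (chd v (finProdFinEquiv.symm q0).1)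
        (finProdFinEquiv.symm q0).2 3)
      split_ifs with h4
      · refine union_subset e1 (ih _ (by omega) ?_)
        rw [hev, eval_valG3] at h4
        intro q hq
        exact hupd false (by
          change (valF x (chd v (finProdFinEquiv.symm q0).1)).val.testBit
            (finProdFinEquiv.symm q0).2.val = false
          simpa using h4) q hq
      · exact e1
    · have h2 : κ = 2 := by
        have := κ.2
        apply Fin.ext
        have a0 : κ.val ≠ 0 := fun h => h0 (Fin.ext h)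
        have a1 : κ.val ≠ 1 := fun h => h1 (Fin.ext h)
        have a3 : κ.val ≠ 3 := fun h => h3 (Fin.ext h)
        simp only [Fin.isValue, Fin.coe_ofNat_eq_mod, Nat.reduceMod]
        omega
      have hop : C.op (v, c, m, w, κ) = Op.and
          (valG (chd v (finProdFinEquiv.symm q0).1) (finProdFinEquiv.symm q0).2 0)
          (v, c, ⟨m.val + 1, by omega⟩, Function.update w q0 true, 0) := by
        change eop (v, c, m, w, κ) = _
        unfold eop
        simp only
        rw [if_neg h3, dif_neg hm, if_neg h0, if_neg h1]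
      have hlt1 := C.level_lt (v, c, m, w, κ)
        (valG (chd v (finProdFinEquiv.symm q0).1) (finProdFinEquiv.symm q0).2 0)
        (by rw [hop]; exact List.mem_cons_self)
      have hlt2 := C.level_lt (v, c, m, w, κ)
        (v, c, ⟨m.val + 1, by omega⟩, Function.update w q0 true, 0)
        (by rw [hop]; exact List.mem_cons_of_mem _ (List.mem_singleton_self _))
      change elev (valG (chd v (finProdFinEquiv.symm q0).1) (finProdFinEquiv.symm q0).2 0) <
        elev (v, c, m, w, κ) at hlt1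
      change elev (v, c, ⟨m.val + 1, by omega⟩, Function.update w q0 true, 0) <
        elev (v, c, m, w, κ) at hlt2
      rw [unfold_and C hop, Fml.looks]
      have e1 := ih _ (by omega) (hval (chd v (finProdFinEquiv.symm q0).1)
        (finProdFinEquiv.symm q0).2 0)
      split_ifs with h4
      · refine union_subset e1 (ih _ (by omega) ?_)
        rw [hev, eval_valG] at h4
        intro q hq
        exact hupd true h4 q hq
      · exact e1

theorem circ_lazy (hℓ : 0 < ℓ) (g0 : Word D ρ) (i0 : Fin D) (x : Input D ρ h (2 ^ ℓ)) :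
    (unfold (circ D ρ h ℓ hℓ g0 i0) (circ D ρ h ℓ hℓ g0 i0).out).eval (bits x) =
      bit (value x h le_rfl g0 i0) ∧
    ((unfold (circ D ρ h ℓ hℓ g0 i0) (circ D ρ h ℓ hℓ g0 i0).out).looks (bits x)).card ≤
      (h + 1) * (D ^ (ρ + 1) * D) * ℓ := by
  constructor
  · rw [unfold_eval (circ D ρ h ℓ hℓ g0 i0) (bits x) (eval x) (eval_eop x) _ _
      (Nat.lt_succ_self _)]
    change eval x (valG ((hgt h 0, g0), i0) ⟨0, hℓ⟩ 3) = _
    rw [eval_valG3]
    have hroot : valF x ((hgt h 0, g0), i0) = value x h le_rfl g0 i0 := rfl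
    rw [hroot]
    unfold bit
    rw [Nat.testBit_zero]
    have := Nat.mod_two_eq_zero_or_one (value x h le_rfl g0 i0).val
    rcases this with h1 | h1 <;> simp [h1]
  · refine (card_le_card (circ_looks hℓ g0 i0 x _ _ (Nat.lt_succ_self _) ?_)).trans
      (right_card x)
    intro q hq
    exact absurd hq (Nat.not_lt_zero _)

end Upper

section Statement

variable {V : Type} [Fintype V] [DecidableEq V] {ℓ : ℕ}

/-- The function is computed by a Boolean circuit over the bits of the variables which has size at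
most `S` and depth at most `T`, and whose lazy evaluation looks at most at `m` different bits. -/
def ByLazyCircuit (f : (V → Fin (2 ^ ℓ)) → Bool) (S T m : ℝ) : Prop :=
  ∃ C : Circuit (V × Fin ℓ), (C.size : ℝ) ≤ S ∧ (C.depth : ℝ) ≤ T ∧
    ∀ x, (unfold C C.out).eval (bits x) = f x ∧
      (((unfold C C.out).looks (bits x)).card : ℝ) ≤ m

/-- Every Boolean formula over the bits of the variables with at most `L` leaves which agrees with
the function on a fraction of at least `1 / 2 + γ` of the inputs looks, if it is evaluated lazily,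
on average at least at `m` different bits. -/
def HardForLazyFormulas (f : (V → Fin (2 ^ ℓ)) → Bool) (L γ m : ℝ) : Prop :=
  ∀ F : Fml (V × Fin ℓ), (F.leaves : ℝ) ≤ L →
    (1 / 2 + γ) * Fintype.card (V → Fin (2 ^ ℓ)) ≤
      (univ.filter (fun x => F.eval (bits x) = f x)).card →
    m * Fintype.card (V → Fin (2 ^ ℓ)) ≤ ∑ x, ((F.looks (bits x)).card : ℝ)

/-- Every Boolean circuit over the bits of the variables of depth at most `T` which agrees with
the function on a fraction of at least `1 / 2 + γ` of the inputs looks, if it is evaluated lazily,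
on average at least at `m` different bits. -/
def HardForLazyCircuits (f : (V → Fin (2 ^ ℓ)) → Bool) (T γ m : ℝ) : Prop :=
  ∀ C : Circuit (V × Fin ℓ), (C.depth : ℝ) ≤ T →
    (1 / 2 + γ) * Fintype.card (V → Fin (2 ^ ℓ)) ≤
      (univ.filter (fun x => (unfold C C.out).eval (bits x) = f x)).card →
    m * Fintype.card (V → Fin (2 ^ ℓ)) ≤ ∑ x, (((unfold C C.out).looks (bits x)).card : ℝ)

theorem hard_formulas (f : (V → Fin (2 ^ ℓ)) → Bool) (s γ m : ℝ) (h : HardReads f s γ m) :
    HardForLazyFormulas f (Real.exp s) γ m := by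
  intro F hF hag
  choose t r h1 h2 using fun x : V → Fin (2 ^ ℓ) => F.prog_run x
  have hpos : 0 < F.prog.size := Fintype.card_pos_iff.2 ⟨F.prog.start⟩
  have h3 := h F.prog t r (fun x => F.eval (bits x)) (by
    rw [Real.log_le_iff_le_exp (by exact_mod_cast hpos), F.prog_size]
    exact hF) h1 hag
  refine h3.trans ?_
  apply sum_le_sum
  intro x _
  exact_mod_cast h2 x

theorem hard_circuits (f : (V → Fin (2 ^ ℓ)) → Bool) (s γ m : ℝ)
    (h : HardForLazyFormulas f (Real.exp s) γ m) : HardForLazyCircuits f s γ m := by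
  intro C hC hag
  refine h (unfold C C.out) ?_ hag
  have h1 : C.level C.out ≤ C.depth := le_sup (f := C.level) (mem_univ C.out)
  have h2 := unfold_leaves C C.depth C.out h1
  have h3 : ((unfold C C.out).leaves : ℝ) ≤ (2 : ℝ) ^ C.depth := by exact_mod_cast h2
  refine h3.trans ?_
  have h4 : (2 : ℝ) ≤ Real.exp 1 := by
    have := Real.exp_one_gt_d9
    linarith
  calc (2 : ℝ) ^ C.depth ≤ (Real.exp 1) ^ C.depth := pow_le_pow_left₀ (by norm_num) h4 _
    _ = Real.exp C.depth := by rw [← Real.exp_nat_mul, mul_one]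
    _ ≤ Real.exp s := Real.exp_le_exp.2 hC

end Statement

variable {β p h ℓ N D : ℕ} {δ : ℝ}

theorem par_lazy (H : Par β p h ℓ N δ D) (g : Word D (2 * p)) (i : Fin D) :
    ByLazyCircuit (rootBit (h := h) (k := 2 ^ ℓ) g i) ((N : ℝ) ^ 2) (5 * h * Real.log N)
      ((N : ℝ) ^ δ) := by
  have hD := H.hD
  subst hD
  have hℓ0 : 0 < ℓ := by
    rw [H.hℓ]
    have := H.hβ
    have := H.hp
    positivity
  refine ⟨circ ((2 ^ β) ^ 3) (2 * p) h ℓ hℓ0 g i, ?_, ?_, ?_⟩
  · have h0 : (circ ((2 ^ β) ^ 3) (2 * p) h ℓ hℓ0 g i).size ≤ N ^ 2 := by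
      rw [circ_size]
      have hb := H.hb
      have hlb := H.hℓb
      have hleN := H.le_N
      have hp := H.hp
      have hN1 := (DB.le_N H.h1 ((2 ^ β) ^ 3) (2 * p) (2 ^ ℓ) (Nat.one_le_pow _ _ (by omega))).1
      rw [← H.hN] at hN1
      have hh1 := H.h1
      set b := 2 ^ β with hbdef
      have e1 : (2 ^ ℓ) ^ b ^ 3 = 2 ^ (b ^ 3 * ℓ) := by rw [← pow_mul]; congr 1; ring
      rw [e1] at hN1
      have h2 : 8 * (ℓ * (b ^ 3 * ℓ + 1)) ≤ N := by
        have h3 : b ^ 3 * ℓ + 1 ≤ b ^ 3 * b ^ p := by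
          calc b ^ 3 * ℓ + 1 ≤ b ^ 3 * ℓ + b ^ 3 * 1 := by
                apply Nat.add_le_add_left
                rw [mul_one]
                exact Nat.one_le_pow _ _ (by omega)
            _ = b ^ 3 * (ℓ + 1) := by ring
            _ ≤ b ^ 3 * b ^ p := Nat.mul_le_mul_left _ hlb
        calc 8 * (ℓ * (b ^ 3 * ℓ + 1)) ≤ b ^ 2 * (b ^ p * (b ^ 3 * b ^ p)) := by
              apply Nat.mul_le_mul
              · nlinarith
              · exact Nat.mul_le_mul (by omega) h3
          _ = b ^ (2 * p + 5) := by ring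
          _ ≤ b ^ (21 * b ^ 3 * p) := by
              apply Nat.pow_le_pow_right (by omega)
              have h4 : 1 ≤ b ^ 3 := Nat.one_le_pow _ _ (by omega)
              have h5 : 21 * 1 * p ≤ 21 * b ^ 3 * p :=
                Nat.mul_le_mul_right _ (Nat.mul_le_mul_left _ h4)
              omega
          _ ≤ N := hleN
      calc ((h + 1) * (b ^ 3) ^ (2 * p + 1) * b ^ 3) *
            (ℓ * ((b ^ 3 * ℓ + 1) * (2 ^ (b ^ 3 * ℓ) * 4)))
          ≤ ((2 * h) * (b ^ 3) ^ (2 * p + 1) * b ^ 3) *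
            (ℓ * ((b ^ 3 * ℓ + 1) * (2 ^ (b ^ 3 * ℓ) * 4))) := by
            gcongr
            omega
        _ = (h * ((b ^ 3) ^ (2 * p + 1) * b ^ 3 * 2 ^ (b ^ 3 * ℓ))) *
            (8 * (ℓ * (b ^ 3 * ℓ + 1))) := by ring
        _ ≤ N * N := Nat.mul_le_mul hN1 h2
        _ = N ^ 2 := by ring
    exact_mod_cast h0
  · have h1 := circ_depth (h := h) hℓ0 g i
    have h2 : ((circ ((2 ^ β) ^ 3) (2 * p) h ℓ hℓ0 g i).depth : ℝ) ≤
        h * (2 * (((2 ^ β : ℕ) : ℝ) ^ 3 * ℓ) + 1) + 1 := by exact_mod_cast h1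
    refine h2.trans ?_
    have h3 := H.log_N
    set L : ℝ := ((2 ^ β : ℕ) : ℝ) ^ 3 * ℓ with hL
    have h4 : (2 : ℝ) ≤ L := by
      have h5 : 2 ≤ (2 ^ β) ^ 3 * ℓ := by
        have h6 : 4 * 1 ≤ (2 ^ β) ^ 3 * ℓ := by
          apply Nat.mul_le_mul _ hℓ0
          have := H.hb
          calc 4 ≤ 2 ^ β := this
            _ = (2 ^ β) ^ 1 := (pow_one _).symm
            _ ≤ (2 ^ β) ^ 3 := Nat.pow_le_pow_right (by positivity) (by norm_num)
        omega
      rw [hL]
      exact_mod_cast h5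
    have hh1 : (1 : ℝ) ≤ h := by exact_mod_cast H.h1
    have h6 := Real.log_two_gt_d9
    have h7 : L * 0.69 ≤ Real.log N := by nlinarith
    have h8 : 2 * L + 2 ≤ 5 * Real.log N := by linarith
    nlinarith
  · intro x
    obtain ⟨h1, h2⟩ := circ_lazy hℓ0 g i x
    refine ⟨h1, ?_⟩
    have h3 := nodes_le H.hb H.hp H.hh
    have h4 : (h + 1) * (((2 ^ β) ^ 3) ^ (2 * p + 1) * (2 ^ β) ^ 3) * ℓ ≤
        (2 ^ β) ^ (10 * p) := by
      calc (h + 1) * (((2 ^ β) ^ 3) ^ (2 * p + 1) * (2 ^ β) ^ 3) * ℓ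
          ≤ (2 ^ β) ^ (9 * p) * (2 ^ β) ^ p :=
            Nat.mul_le_mul h3 (by have := H.hℓb; omega)
        _ = (2 ^ β) ^ (10 * p) := by rw [← pow_add]; congr 1; ring
    refine le_trans ?_ H.ge_pow
    exact_mod_cast h2.trans h4

/-- **The depth law for lazily evaluated circuits.** -/
theorem lazy_stmt (δ : ℝ) (hδ : 0 < δ) : ∃ D ℓ₁ : ℕ, 2 ≤ D ∧ 1 ≤ ℓ₁ ∧ ∃ c : ℝ, 0 < c ∧ ∃ p₀ : ℕ,
    ∀ p : ℕ, p₀ ≤ p → ∀ h : ℕ, 1 ≤ h → h ≤ 2 ^ p → ∀ ℓ : ℕ, ℓ = ℓ₁ * p → ∀ N : ℝ,
    N = Fintype.card (Var D (2 * p) h (2 ^ ℓ)) → N ^ c ≤ 2 ^ p ∧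
      ∀ (g : Word D (2 * p)) (i : Fin D) (f : Input D (2 * p) h (2 ^ ℓ) → Bool),
      f = rootBit g i →
      ByLazyCircuit f (N ^ 2) (5 * h * Real.log N) (N ^ δ) ∧
      HardForLazyFormulas f (N ^ (c * h)) (N ^ (-c)) (N ^ (1 - δ)) ∧
      HardForLazyCircuits f (c * h * Real.log N) (N ^ (-c)) (N ^ (1 - δ)) := by
  obtain ⟨β, p₀, hβ, hp₀, hpar⟩ := exists_par δ hδ
  have hb4 : 4 ≤ 2 ^ β := by
    calc 4 = 2 ^ 2 := by norm_num
      _ ≤ 2 ^ β := Nat.pow_le_pow_right (by norm_num) (by omega)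
  obtain ⟨D, hD⟩ : ∃ D, D = (2 ^ β) ^ 3 := ⟨_, rfl⟩
  have hD2 : 2 ≤ D := by
    rw [hD]
    calc 2 ≤ 2 ^ β := by omega
      _ = (2 ^ β) ^ 1 := (pow_one _).symm
      _ ≤ (2 ^ β) ^ 3 := Nat.pow_le_pow_right (by positivity) (by norm_num)
  have hβ0 : (0 : ℝ) < β := by
    have : 0 < β := by omega
    exact_mod_cast this
  refine ⟨D, 21 * β, hD2, by omega,
    1 / (4 * (β : ℝ) * (21 * ((2 ^ β : ℕ) : ℝ) ^ 3 + 9)), by positivity, p₀, ?_⟩
  intro p hp h h1 hh ℓ hℓ N' hN'
  obtain ⟨N, hN⟩ : ∃ N, N = Fintype.card (Var D (2 * p) h (2 ^ ℓ)) := ⟨_, rfl⟩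
  rw [← hN] at hN'
  subst hN'
  have hpp : p < 2 ^ p := Nat.lt_two_pow_self
  have hh' : h + 1 ≤ (2 ^ β) ^ (2 * p) := by
    calc h + 1 ≤ 2 ^ p * 2 ^ p := by nlinarith
      _ = 2 ^ (2 * p) := by rw [← pow_add]; congr 1; ring
      _ ≤ (2 ^ β) ^ (2 * p) := Nat.pow_le_pow_left (by omega) _
  have H := hpar D hD p hp h h1 hh' ℓ hℓ N hN
  refine ⟨?_, ?_⟩
  · refine H.hNc.trans ?_
    rw [← Real.rpow_natCast]
    apply Real.rpow_le_rpow_of_exponent_le (by norm_num)
    have hp0 : (0 : ℝ) ≤ p := by positivity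
    linarith
  · rintro g i f rfl
    have hN0 : (0 : ℝ) < N := by
      have := H.one_le_N
      have : 0 < N := by omega
      exact_mod_cast this
    have hlaw : HardReads (rootBit (h := h) (k := 2 ^ ℓ) g i)
        (1 / (4 * (β : ℝ) * (21 * ((2 ^ β : ℕ) : ℝ) ^ 3 + 9)) * h * Real.log N)
        ((N : ℝ) ^ (-(1 / (4 * (β : ℝ) * (21 * ((2 ^ β : ℕ) : ℝ) ^ 3 + 9)))))
        ((N : ℝ) ^ (1 - δ)) := by
      intro P T M R hS hrun hag
      exact H.law hh g i P T M R hS hrun hag
    have h2 := hard_formulas _ _ _ _ hlaw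
    refine ⟨par_lazy H g i, ?_, hard_circuits _ _ _ _ h2⟩
    have e1 : (N : ℝ) ^ (1 / (4 * (β : ℝ) * (21 * ((2 ^ β : ℕ) : ℝ) ^ 3 + 9)) * h) =
        Real.exp (1 / (4 * (β : ℝ) * (21 * ((2 ^ β : ℕ) : ℝ) ^ 3 + 9)) * h * Real.log N) := by
      rw [Real.rpow_def_of_pos hN0]
      congr 1
      ring
    rw [e1]
    exact h2

end Pool.Agent.W997.LZ
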