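import Pool.Agent.W997.DB.Stmt

/-!
# Lazy evaluation of formulas and circuits
-/

set_option autoImplicit false

namespace Pool.Agent.W997.LZ

open Finset
open Pool.Agent.W997.TS (DBP bit)
open Pool.Agent.W997.DB

/-- Boolean formulas over the set `B` of inputs. -/
inductive Fml (B : Type) : Type where
  /-- an input -/
  | lit (b : B) : Fml B
  /-- negation -/
  | not (F : Fml B) : Fml B
  /-- conjunction -/
  | and (F G : Fml B) : Fml B
  /-- disjunction -/
  | or (F G : Fml B) : Fml B

namespace Fml

variable {B : Type}

/-- The value. -/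
def eval : Fml B → (B → Bool) → Bool
  | lit b, y => y b
  | not F, y => !F.eval y
  | and F G, y => F.eval y && G.eval y
  | or F G, y => F.eval y || G.eval y

/-- The number of leaves. -/
def leaves : Fml B → ℕ
  | lit _ => 1
  | not F => F.leaves
  | and F G => F.leaves + G.leaves
  | or F G => F.leaves + G.leaves

/-- The inputs which are looked at by the lazy evaluation from left to right: the second operand of
a conjunction is evaluated only if the first one is true, the second operand of a disjunction only
if the first one is false. -/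
def looks [DecidableEq B] : Fml B → (B → Bool) → Finset B
  | lit b, _ => {b}
  | not F, y => F.looks y
  | and F G, y => if F.eval y then F.looks y ∪ G.looks y else F.looks y
  | or F G, y => if F.eval y then F.looks y else F.looks y ∪ G.looks y

/-! ### Lazy evaluation by branching programs -/

/-- The leaves as a type. -/
def Leaf : Fml B → Type
  | lit _ => Unit
  | not F => F.Leaf
  | and F G => F.Leaf ⊕ G.Leaf
  | or F G => F.Leaf ⊕ G.Leaf

instance instFintypeLeaf : (F : Fml B) → Fintype F.Leaf
  | lit _ => inferInstanceAs (Fintype Unit)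
  | not F => instFintypeLeaf F
  | and F G => @instFintypeSum _ _ (instFintypeLeaf F) (instFintypeLeaf G)
  | or F G => @instFintypeSum _ _ (instFintypeLeaf F) (instFintypeLeaf G)

theorem card_leaf : ∀ F : Fml B, Fintype.card F.Leaf = F.leaves
  | lit _ => rfl
  | not F => F.card_leaf
  | and F G => by
    have h : Fintype.card (F.and G).Leaf = Fintype.card F.Leaf + Fintype.card G.Leaf :=
      @Fintype.card_sum _ _ (instFintypeLeaf F) (instFintypeLeaf G)
    rw [h, F.card_leaf, G.card_leaf, leaves]
  | or F G => by
    have h : Fintype.card (F.or G).Leaf = Fintype.card F.Leaf + Fintype.card G.Leaf :=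
      @Fintype.card_sum _ _ (instFintypeLeaf F) (instFintypeLeaf G)
    rw [h, F.card_leaf, G.card_leaf, leaves]

/-- The first leaf. -/
def first : (F : Fml B) → F.Leaf
  | lit _ => ()
  | not F => F.first
  | and F _ => Sum.inl F.first
  | or F _ => Sum.inl F.first

/-- The input at a leaf. -/
def inp : (F : Fml B) → F.Leaf → B
  | lit b, _ => b
  | not F, l => F.inp l
  | and F G, l => Sum.elim F.inp G.inp l
  | or F G, l => Sum.elim F.inp G.inp l

/-- The leaf which is evaluated after the leaf `l` if this has the value `v`, or the value of the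
formula. -/
def succ : (F : Fml B) → F.Leaf → Bool → F.Leaf ⊕ Bool
  | lit _, _, v => Sum.inr v
  | not F, l, v => Sum.elim Sum.inl (fun r => Sum.inr !r) (F.succ l v)
  | and F G, l, v =>
    Sum.elim
      (fun l : F.Leaf => Sum.elim (fun l' => Sum.inl (Sum.inl l'))
        (fun r : Bool => if r then Sum.inl (Sum.inr G.first) else Sum.inr false) (F.succ l v))
      (fun l : G.Leaf => Sum.elim (fun l' => Sum.inl (Sum.inr l')) Sum.inr (G.succ l v)) l
  | or F G, l, v =>
    Sum.elim
      (fun l : F.Leaf => Sum.elim (fun l' => Sum.inl (Sum.inl l'))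
        (fun r : Bool => if r then Sum.inr true else Sum.inl (Sum.inr G.first)) (F.succ l v))
      (fun l : G.Leaf => Sum.elim (fun l' => Sum.inl (Sum.inr l')) Sum.inr (G.succ l v)) l

/-- The lazy evaluation started at a leaf visits the leaves in the list and has the result `r`. -/
def Visits (F : Fml B) (y : B → Bool) : F.Leaf → List F.Leaf → Bool → Prop
  | l, [], r => F.succ l (y (F.inp l)) = Sum.inr r
  | l, l' :: ls, r => F.succ l (y (F.inp l)) = Sum.inl l' ∧ F.Visits y l' ls r

theorem visits_not (F : Fml B) (y : B → Bool) : ∀ (ls : List F.Leaf) (l : F.Leaf) (r : Bool),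
    F.Visits y l ls r → (Fml.not F).Visits y l ls (!r)
  | [], l, r, h => by
    have h1 : F.succ l (y (F.inp l)) = Sum.inr r := h
    change Sum.elim Sum.inl (fun r => Sum.inr !r) (F.succ l (y (F.inp l))) = _
    rw [h1]
    rfl
  | l' :: ls, l, r, h => by
    refine ⟨?_, visits_not F y ls l' r h.2⟩
    change Sum.elim Sum.inl (fun r => Sum.inr !r) (F.succ l (y (F.inp l))) = _
    rw [h.1]
    rfl

theorem visits_and_right (F G : Fml B) (y : B → Bool) : ∀ (ls : List G.Leaf) (l : G.Leaf)
    (r : Bool), G.Visits y l ls r →
    (F.and G).Visits y (Sum.inr l) (ls.map Sum.inr) r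
  | [], l, r, h => by
    have h1 : G.succ l (y (G.inp l)) = Sum.inr r := h
    change Sum.elim (fun l' => Sum.inl (Sum.inr l')) Sum.inr (G.succ l (y (G.inp l))) = _
    rw [h1]
    rfl
  | l' :: ls, l, r, h => by
    refine ⟨?_, visits_and_right F G y ls l' r h.2⟩
    change Sum.elim (fun l' => Sum.inl (Sum.inr l')) Sum.inr (G.succ l (y (G.inp l))) = _
    rw [h.1]
    rfl

theorem visits_and_false (F G : Fml B) (y : B → Bool) : ∀ (ls : List F.Leaf) (l : F.Leaf),
    F.Visits y l ls false → (F.and G).Visits y (Sum.inl l) (ls.map Sum.inl) false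
  | [], l, h => by
    have h1 : F.succ l (y (F.inp l)) = Sum.inr false := h
    change Sum.elim (fun l' => Sum.inl (Sum.inl l'))
        (fun r : Bool => if r then Sum.inl (Sum.inr G.first) else Sum.inr false)
        (F.succ l (y (F.inp l))) = _
    rw [h1]
    rfl
  | l' :: ls, l, h => by
    refine ⟨?_, visits_and_false F G y ls l' h.2⟩
    change Sum.elim (fun l' => Sum.inl (Sum.inl l'))
        (fun r : Bool => if r then Sum.inl (Sum.inr G.first) else Sum.inr false)
        (F.succ l (y (F.inp l))) = _
    rw [h.1]
    rfl

theorem visits_and_true (F G : Fml B) (y : B → Bool) (gs : List G.Leaf) (r : Bool)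
    (hg : G.Visits y G.first gs r) : ∀ (ls : List F.Leaf) (l : F.Leaf),
    F.Visits y l ls true → (F.and G).Visits y (Sum.inl l)
      (ls.map Sum.inl ++ Sum.inr G.first :: gs.map Sum.inr) r
  | [], l, h => by
    have h1 : F.succ l (y (F.inp l)) = Sum.inr true := h
    refine ⟨?_, visits_and_right F G y gs _ r hg⟩
    change Sum.elim (fun l' => Sum.inl (Sum.inl l'))
        (fun r : Bool => if r then Sum.inl (Sum.inr G.first) else Sum.inr false)
        (F.succ l (y (F.inp l))) = _
    rw [h1]
    rfl
  | l' :: ls, l, h => by
    refine ⟨?_, visits_and_true F G y gs r hg ls l' h.2⟩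
    change Sum.elim (fun l' => Sum.inl (Sum.inl l'))
        (fun r : Bool => if r then Sum.inl (Sum.inr G.first) else Sum.inr false)
        (F.succ l (y (F.inp l))) = _
    rw [h.1]
    rfl

theorem visits_or_right (F G : Fml B) (y : B → Bool) : ∀ (ls : List G.Leaf) (l : G.Leaf)
    (r : Bool), G.Visits y l ls r →
    (F.or G).Visits y (Sum.inr l) (ls.map Sum.inr) r
  | [], l, r, h => by
    have h1 : G.succ l (y (G.inp l)) = Sum.inr r := h
    change Sum.elim (fun l' => Sum.inl (Sum.inr l')) Sum.inr (G.succ l (y (G.inp l))) = _
    rw [h1]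
    rfl
  | l' :: ls, l, r, h => by
    refine ⟨?_, visits_or_right F G y ls l' r h.2⟩
    change Sum.elim (fun l' => Sum.inl (Sum.inr l')) Sum.inr (G.succ l (y (G.inp l))) = _
    rw [h.1]
    rfl

theorem visits_or_true (F G : Fml B) (y : B → Bool) : ∀ (ls : List F.Leaf) (l : F.Leaf),
    F.Visits y l ls true → (F.or G).Visits y (Sum.inl l) (ls.map Sum.inl) true
  | [], l, h => by
    have h1 : F.succ l (y (F.inp l)) = Sum.inr true := h
    change Sum.elim (fun l' => Sum.inl (Sum.inl l'))
        (fun r : Bool => if r then Sum.inr true else Sum.inl (Sum.inr G.first))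
        (F.succ l (y (F.inp l))) = _
    rw [h1]
    rfl
  | l' :: ls, l, h => by
    refine ⟨?_, visits_or_true F G y ls l' h.2⟩
    change Sum.elim (fun l' => Sum.inl (Sum.inl l'))
        (fun r : Bool => if r then Sum.inr true else Sum.inl (Sum.inr G.first))
        (F.succ l (y (F.inp l))) = _
    rw [h.1]
    rfl

theorem visits_or_false (F G : Fml B) (y : B → Bool) (gs : List G.Leaf) (r : Bool)
    (hg : G.Visits y G.first gs r) : ∀ (ls : List F.Leaf) (l : F.Leaf),
    F.Visits y l ls false → (F.or G).Visits y (Sum.inl l)
      (ls.map Sum.inl ++ Sum.inr G.first :: gs.map Sum.inr) r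
  | [], l, h => by
    have h1 : F.succ l (y (F.inp l)) = Sum.inr false := h
    refine ⟨?_, visits_or_right F G y gs _ r hg⟩
    change Sum.elim (fun l' => Sum.inl (Sum.inl l'))
        (fun r : Bool => if r then Sum.inr true else Sum.inl (Sum.inr G.first))
        (F.succ l (y (F.inp l))) = _
    rw [h1]
    rfl
  | l' :: ls, l, h => by
    refine ⟨?_, visits_or_false F G y gs r hg ls l' h.2⟩
    change Sum.elim (fun l' => Sum.inl (Sum.inl l'))
        (fun r : Bool => if r then Sum.inr true else Sum.inl (Sum.inr G.first))
        (F.succ l (y (F.inp l))) = _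
    rw [h.1]
    rfl

theorem map_inl {α β γ : Type} (f : α → γ) (g : β → γ) (ls : List α) :
    (ls.map (Sum.inl : α → α ⊕ β)).map (Sum.elim f g) = ls.map f := by
  rw [List.map_map]
  rfl

theorem map_inr {α β γ : Type} (f : α → γ) (g : β → γ) (ls : List β) :
    (ls.map (Sum.inr : β → α ⊕ β)).map (Sum.elim f g) = ls.map g := by
  rw [List.map_map]
  rfl

theorem toFinset_one {α β γ : Type} [DecidableEq γ] (f : α → γ) (g : β → γ) (a : α)
    (ls : List α) :
    (((Sum.inl a : α ⊕ β) :: ls.map Sum.inl).map (Sum.elim f g)).toFinset =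
      ((a :: ls).map f).toFinset := by
  rw [List.map_cons, map_inl]
  rfl

theorem toFinset_two {α β γ : Type} [DecidableEq γ] (f : α → γ) (g : β → γ) (a : α)
    (ls : List α) (b : β) (gs : List β) :
    (((Sum.inl a : α ⊕ β) :: (ls.map Sum.inl ++ Sum.inr b :: gs.map Sum.inr)).map
      (Sum.elim f g)).toFinset =
      ((a :: ls).map f).toFinset ∪ ((b :: gs).map g).toFinset := by
  rw [← List.cons_append, List.map_append, List.toFinset_append, List.map_cons, map_inl,
    List.map_cons, map_inr]
  rfl

/-- **Lazy evaluation is correct.** -/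
theorem exists_visits [DecidableEq B] (y : B → Bool) : ∀ F : Fml B, ∃ ls : List F.Leaf,
    F.Visits y F.first ls (F.eval y) ∧
      ((F.first :: ls).map F.inp).toFinset = F.looks y
  | lit b => ⟨[], rfl, rfl⟩
  | not F => by
    obtain ⟨ls, h1, h2⟩ := exists_visits y F
    exact ⟨ls, visits_not F y ls _ _ h1, h2⟩
  | and F G => by
    obtain ⟨ls, h1, h2⟩ := exists_visits y F
    obtain ⟨gs, h3, h4⟩ := exists_visits y G
    cases hF : F.eval y with
    | false =>
      rw [hF] at h1
      refine ⟨ls.map Sum.inl, ?_, ?_⟩
      · have : (F.and G).eval y = false := by simp [eval, hF]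
        rw [this]
        exact visits_and_false F G y ls _ h1
      · have : (F.and G).looks y = F.looks y := by simp [looks, hF]
        rw [this, ← h2]
        exact toFinset_one F.inp G.inp F.first ls
    | true =>
      rw [hF] at h1
      refine ⟨ls.map Sum.inl ++ Sum.inr G.first :: gs.map Sum.inr, ?_, ?_⟩
      · have : (F.and G).eval y = G.eval y := by simp [eval, hF]
        rw [this]
        exact visits_and_true F G y gs _ h3 ls _ h1
      · have : (F.and G).looks y = F.looks y ∪ G.looks y := by simp [looks, hF]
        rw [this, ← h2, ← h4]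
        exact toFinset_two F.inp G.inp F.first ls G.first gs
  | or F G => by
    obtain ⟨ls, h1, h2⟩ := exists_visits y F
    obtain ⟨gs, h3, h4⟩ := exists_visits y G
    cases hF : F.eval y with
    | true =>
      rw [hF] at h1
      refine ⟨ls.map Sum.inl, ?_, ?_⟩
      · have : (F.or G).eval y = true := by simp [eval, hF]
        rw [this]
        exact visits_or_true F G y ls _ h1
      · have : (F.or G).looks y = F.looks y := by simp [looks, hF]
        rw [this, ← h2]
        exact toFinset_one F.inp G.inp F.first ls
    | false =>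
      rw [hF] at h1
      refine ⟨ls.map Sum.inl ++ Sum.inr G.first :: gs.map Sum.inr, ?_, ?_⟩
      · have : (F.or G).eval y = G.eval y := by simp [eval, hF]
        rw [this]
        exact visits_or_false F G y gs _ h3 ls _ h1
      · have : (F.or G).looks y = F.looks y ∪ G.looks y := by simp [looks, hF]
        rw [this, ← h2, ← h4]
        exact toFinset_two F.inp G.inp F.first ls G.first gs

end Fml

section Program

variable {V : Type} {ℓ : ℕ}

/-- The branching program of the lazy evaluation. -/
def Fml.prog (F : Fml (V × Fin ℓ)) : DBP V (2 ^ ℓ) where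
  State := F.Leaf
  start := F.first
  query := fun l => (F.inp l).1
  next := fun l c => F.succ l (c.val.testBit (F.inp l).2.val)

theorem Fml.prog_path (F : Fml (V × Fin ℓ)) (x : V → Fin (2 ^ ℓ)) (r : Bool) :
    ∀ (ls : List F.Leaf) (l : F.Leaf), F.Visits (bits x) l ls r → F.prog.IsPath x l ls r
  | [], _, h => h
  | _ :: ls, _, h => ⟨h.1, prog_path F x r ls _ h.2⟩

theorem Fml.prog_run [DecidableEq V] (F : Fml (V × Fin ℓ)) (x : V → Fin (2 ^ ℓ)) :
    ∃ t m, F.prog.Run x t m (F.eval (bits x)) ∧ m ≤ (F.looks (bits x)).card := by
  obtain ⟨ls, h1, h2⟩ := Fml.exists_visits (bits x) F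
  refine ⟨_, _, ⟨ls, F.prog_path x _ ls _ h1, rfl, rfl⟩, ?_⟩
  rw [← h2]
  have h3 : (((F.first :: ls).map F.inp).toFinset.image Prod.fst) =
      ((F.prog.start :: ls).map F.prog.query).toFinset := by
    ext v
    simp only [mem_image, List.mem_toFinset, List.mem_map]
    constructor
    · rintro ⟨b, ⟨l, hl, rfl⟩, rfl⟩
      exact ⟨l, hl, rfl⟩
    · rintro ⟨l, hl, rfl⟩
      exact ⟨F.inp l, ⟨l, hl, rfl⟩, rfl⟩
  rw [← h3]
  exact card_image_le

theorem Fml.prog_size (F : Fml (V × Fin ℓ)) : F.prog.size = F.leaves := F.card_leaf

end Program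

/-! ### Circuits -/

section Circ

variable {B : Type}

/-- The formula which arises from the circuit by unfolding it, starting at a gate. -/
def unfold (C : Circuit B) (g : C.Gate) : Fml B :=
  match h : C.op g with
  | Op.lit v => Fml.lit v
  | Op.not a =>
    have : C.level a < C.level g := C.level_lt g a (by rw [h]; simp [Op.args])
    Fml.not (unfold C a)
  | Op.and a b =>
    have : C.level a < C.level g := C.level_lt g a (by rw [h]; simp [Op.args])
    have : C.level b < C.level g := C.level_lt g b (by rw [h]; simp [Op.args])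
    Fml.and (unfold C a) (unfold C b)
  | Op.or a b =>
    have : C.level a < C.level g := C.level_lt g a (by rw [h]; simp [Op.args])
    have : C.level b < C.level g := C.level_lt g b (by rw [h]; simp [Op.args])
    Fml.or (unfold C a) (unfold C b)
termination_by C.level g

theorem unfold_lit (C : Circuit B) {g : C.Gate} {v : B} (h : C.op g = Op.lit v) :
    unfold C g = Fml.lit v := by
  rw [unfold]
  split
  · rename_i v' h'
    rw [h] at h'
    cases h'
    rfl
  · rename_i h'; rw [h] at h'; cases h'
  · rename_i h'; rw [h] at h'; cases h'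
  · rename_i h'; rw [h] at h'; cases h'

theorem unfold_not (C : Circuit B) {g a : C.Gate} (h : C.op g = Op.not a) :
    unfold C g = Fml.not (unfold C a) := by
  rw [unfold]
  split
  · rename_i h'; rw [h] at h'; cases h'
  · rename_i h'
    rw [h] at h'
    cases h'
    rfl
  · rename_i h'; rw [h] at h'; cases h'
  · rename_i h'; rw [h] at h'; cases h'

theorem unfold_and (C : Circuit B) {g a b : C.Gate} (h : C.op g = Op.and a b) :
    unfold C g = Fml.and (unfold C a) (unfold C b) := by
  rw [unfold]
  split
  · rename_i h'; rw [h] at h'; cases h'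
  · rename_i h'; rw [h] at h'; cases h'
  · rename_i h'
    rw [h] at h'
    cases h'
    rfl
  · rename_i h'; rw [h] at h'; cases h'

theorem unfold_or (C : Circuit B) {g a b : C.Gate} (h : C.op g = Op.or a b) :
    unfold C g = Fml.or (unfold C a) (unfold C b) := by
  rw [unfold]
  split
  · rename_i h'; rw [h] at h'; cases h'
  · rename_i h'; rw [h] at h'; cases h'
  · rename_i h'; rw [h] at h'; cases h'
  · rename_i h'
    rw [h] at h'
    cases h'
    rfl

theorem unfold_leaves (C : Circuit B) : ∀ (n : ℕ) (g : C.Gate), C.level g ≤ n →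
    (unfold C g).leaves ≤ 2 ^ n := by
  intro n
  induction n with
  | zero =>
    intro g hg
    cases hop : C.op g with
    | lit v => rw [unfold_lit C hop]; simp [Fml.leaves]
    | not a =>
      have := C.level_lt g a (by rw [hop]; simp [Op.args])
      omega
    | and a b =>
      have := C.level_lt g a (by rw [hop]; simp [Op.args])
      omega
    | or a b =>
      have := C.level_lt g a (by rw [hop]; simp [Op.args])
      omega
  | succ n ih =>
    intro g hg
    cases hop : C.op g with
    | lit v =>
      rw [unfold_lit C hop]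
      simp only [Fml.leaves]
      exact Nat.one_le_two_pow
    | not a =>
      have h1 := C.level_lt g a (by rw [hop]; simp [Op.args])
      rw [unfold_not C hop, Fml.leaves]
      refine (ih a (by omega)).trans ?_
      exact Nat.pow_le_pow_right (by norm_num) (by omega)
    | and a b =>
      have h1 := C.level_lt g a (by rw [hop]; simp [Op.args])
      have h2 := C.level_lt g b (by rw [hop]; simp [Op.args])
      rw [unfold_and C hop, Fml.leaves]
      have h3 := ih a (by omega)
      have h4 := ih b (by omega)
      rw [pow_succ]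
      omega
    | or a b =>
      have h1 := C.level_lt g a (by rw [hop]; simp [Op.args])
      have h2 := C.level_lt g b (by rw [hop]; simp [Op.args])
      rw [unfold_or C hop, Fml.leaves]
      have h3 := ih a (by omega)
      have h4 := ih b (by omega)
      rw [pow_succ]
      omega

theorem unfold_eval (C : Circuit B) (y : B → Bool) (u : C.Gate → Bool)
    (hu : ∀ g, u g = (C.op g).eval y u) : ∀ (n : ℕ) (g : C.Gate), C.level g < n →
    (unfold C g).eval y = u g := by
  intro n
  induction n with
  | zero => intro g hg; omega
  | succ n ih =>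
    intro g hg
    rw [hu g]
    cases hop : C.op g with
    | lit v => rw [unfold_lit C hop]; rfl
    | not a =>
      have h1 := C.level_lt g a (by rw [hop]; simp [Op.args])
      rw [unfold_not C hop, Fml.eval, ih a (by omega)]
      rfl
    | and a b =>
      have h1 := C.level_lt g a (by rw [hop]; simp [Op.args])
      have h2 := C.level_lt g b (by rw [hop]; simp [Op.args])
      rw [unfold_and C hop, Fml.eval, ih a (by omega), ih b (by omega)]
      rfl
    | or a b =>
      have h1 := C.level_lt g a (by rw [hop]; simp [Op.args])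
      have h2 := C.level_lt g b (by rw [hop]; simp [Op.args])
      rw [unfold_or C hop, Fml.eval, ih a (by omega), ih b (by omega)]
      rfl

end Circ

end Pool.Agent.W997.LZ
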